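import Mathlib
import Pool.Agent.U209.BX.Stm

/-!
Project BX, package CONS: construction of the sequence of polynomials by recursion.
-/

set_option autoImplicit false

namespace Pool.Agent.U283.BX.CONS

open Polynomial Complex Finset Filter Topology MeasureTheory ComplexConjugate Metric
open Pool.Agent.U209.BX

/-- the tolerance `η`: near `y0` all the relevant quantities are close to their values at `y0` -/
theorem exists_eta (y0 y1 : ℂ) (h0 : y0 ≠ 0) (h16 : 16 * ‖y1 - y0‖ ≤ ‖y0‖) (τ : ℝ) (hτ : 0 < τ) :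
    ∃ η : ℝ, 0 < η ∧ ∀ x : ℂ, ‖x - y0‖ ≤ η →
      8 * ‖y1 - x‖ ≤ ‖x‖ ∧
      ‖2 * conj x / x ^ 3 * (y1 - x) - 2 * (conj y0 / y0 ^ 3 * (y1 - y0))‖ ≤ τ ∧
      20 * ‖y1 - x‖ ^ 2 / ‖x‖ ^ 3 ≤ 20 * (‖y1 - y0‖ ^ 2 / ‖y0‖ ^ 3) + τ ∧
      2 * ‖y1 - x‖ / ‖x‖ ^ 2 ≤ 2 * (‖y1 - y0‖ / ‖y0‖ ^ 2) + τ ∧
      ‖y1 - y0‖ / ‖y0‖ ^ 4 - τ ≤ ‖2 * (Real.pi : ℂ) * (-3 * (y1 - x) / x ^ 4)‖ := by
  have hn0 : ‖y0‖ ≠ 0 := norm_ne_zero_iff.2 h0
  have hp0 : 0 < ‖y0‖ := norm_pos_iff.2 h0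
  have hid : ContinuousAt (fun x : ℂ => x) y0 := continuousAt_id
  have hnx : ContinuousAt (fun x : ℂ => ‖x‖) y0 := continuous_norm.continuousAt
  have hb : ContinuousAt (fun x : ℂ => y1 - x) y0 := continuousAt_const.sub hid
  have hnb : ContinuousAt (fun x : ℂ => ‖y1 - x‖) y0 := hb.norm
  have hcj : ContinuousAt (fun x : ℂ => conj x) y0 := Complex.continuous_conj.continuousAt
  have e1 : ∀ᶠ x in 𝓝 y0, 8 * ‖y1 - x‖ < ‖x‖ := by
    have hc : ContinuousAt (fun x : ℂ => 8 * ‖y1 - x‖) y0 := continuousAt_const.mul hnb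
    apply hc.eventually_lt hnx
    linarith [norm_nonneg (y1 - y0)]
  have e2 : ∀ᶠ x in 𝓝 y0,
      ‖2 * conj x / x ^ 3 * (y1 - x) - 2 * (conj y0 / y0 ^ 3 * (y1 - y0))‖ < τ := by
    have hc : ContinuousAt (fun x : ℂ => ‖2 * conj x / x ^ 3 * (y1 - x) -
        2 * (conj y0 / y0 ^ 3 * (y1 - y0))‖) y0 := by
      apply ContinuousAt.norm
      apply ContinuousAt.sub _ continuousAt_const
      apply ContinuousAt.mul _ hb
      exact (continuousAt_const.mul hcj).div (hid.pow 3) (pow_ne_zero 3 h0)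
    apply hc.eventually_lt continuousAt_const
    have : 2 * conj y0 / y0 ^ 3 * (y1 - y0) - 2 * (conj y0 / y0 ^ 3 * (y1 - y0)) = 0 := by ring
    rw [this, norm_zero]
    exact hτ
  have e3 : ∀ᶠ x in 𝓝 y0,
      20 * ‖y1 - x‖ ^ 2 / ‖x‖ ^ 3 < 20 * (‖y1 - y0‖ ^ 2 / ‖y0‖ ^ 3) + τ := by
    have hc : ContinuousAt (fun x : ℂ => 20 * ‖y1 - x‖ ^ 2 / ‖x‖ ^ 3) y0 :=
      (continuousAt_const.mul (hnb.pow 2)).div (hnx.pow 3) (pow_ne_zero 3 hn0)
    apply hc.eventually_lt continuousAt_const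
    have : 20 * ‖y1 - y0‖ ^ 2 / ‖y0‖ ^ 3 = 20 * (‖y1 - y0‖ ^ 2 / ‖y0‖ ^ 3) := by ring
    rw [this]
    linarith
  have e4 : ∀ᶠ x in 𝓝 y0, 2 * ‖y1 - x‖ / ‖x‖ ^ 2 < 2 * (‖y1 - y0‖ / ‖y0‖ ^ 2) + τ := by
    have hc : ContinuousAt (fun x : ℂ => 2 * ‖y1 - x‖ / ‖x‖ ^ 2) y0 :=
      (continuousAt_const.mul hnb).div (hnx.pow 2) (pow_ne_zero 2 hn0)
    apply hc.eventually_lt continuousAt_const
    have : 2 * ‖y1 - y0‖ / ‖y0‖ ^ 2 = 2 * (‖y1 - y0‖ / ‖y0‖ ^ 2) := by ring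
    rw [this]
    linarith
  have e5 : ∀ᶠ x in 𝓝 y0, ‖y1 - y0‖ / ‖y0‖ ^ 4 - τ <
      ‖2 * (Real.pi : ℂ) * (-3 * (y1 - x) / x ^ 4)‖ := by
    have hc : ContinuousAt (fun x : ℂ => ‖2 * (Real.pi : ℂ) * (-3 * (y1 - x) / x ^ 4)‖) y0 := by
      apply ContinuousAt.norm
      apply ContinuousAt.mul continuousAt_const
      exact (continuousAt_const.mul hb).div (hid.pow 4) (pow_ne_zero 4 h0)
    apply continuousAt_const.eventually_lt hc
    have h1 : ‖2 * (Real.pi : ℂ) * (-3 * (y1 - y0) / y0 ^ 4)‖ =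
        6 * Real.pi * (‖y1 - y0‖ / ‖y0‖ ^ 4) := by
      rw [norm_mul, norm_mul, norm_div, norm_mul, norm_pow, Complex.norm_real, norm_neg,
        Real.norm_of_nonneg Real.pi_pos.le]
      simp only [RCLike.norm_ofNat]
      ring
    rw [h1]
    have h2 : 0 ≤ ‖y1 - y0‖ / ‖y0‖ ^ 4 := by positivity
    have h3 : (1 : ℝ) ≤ 6 * Real.pi := by linarith [Real.pi_gt_three]
    nlinarith
  have hall := (((e1.and e2).and e3).and e4).and e5
  rw [Metric.eventually_nhds_iff] at hall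
  obtain ⟨ε, hε, hball⟩ := hall
  refine ⟨ε / 2, by positivity, fun x hx => ?_⟩
  have hd : dist x y0 < ε := by
    rw [dist_eq_norm]
    linarith
  obtain ⟨⟨⟨⟨a1, a2⟩, a3⟩, a4⟩, a5⟩ := hball hd
  exact ⟨a1.le, a2.le, a3.le, a4.le, a5.le⟩

/-- states of the recursion -/
structure Sta (y : ℕ → ℂ) (η : ℕ → ℝ) where
  j : ℕ
  u : ℂ[X]
  z : ℂ
  P : ℕ
  zf : ZF u
  hz : ‖z‖ = 1
  hP : 0 < P
  hη : ‖u.eval z - y j‖ ≤ η j

/-- the relation between successive states -/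
def Rel {y : ℕ → ℂ} {η : ℕ → ℝ} (s s' : Sta y η) : Prop :=
  s'.j = s.j + 1 ∧
  ‖K s'.u s'.z - K s.u s.z +
      2 * (conj (y s.j) / (y s.j) ^ 3 * (y (s.j + 1) - y s.j))‖ ≤
    20 * (‖y (s.j + 1) - y s.j‖ ^ 2 / ‖y s.j‖ ^ 3) + 3 * (1 / 2) ^ s.j ∧
  (∀ ζ : ℂ, ‖ζ‖ = 1 → ‖K s'.u ζ‖ ≤ max ‖K s.u ζ‖
    (‖K s.u s.z‖ + 2 * (‖y (s.j + 1) - y s.j‖ / ‖y s.j‖ ^ 2) +
      20 * (‖y (s.j + 1) - y s.j‖ ^ 2 / ‖y s.j‖ ^ 3) + 2 * (1 / 2) ^ s.j) + (1 / 2) ^ s.j) ∧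
  (∫ θ in (0:ℝ)..(2 * Real.pi), ‖Fn s'.u (ex θ) - Fn s.u (ex θ)‖ ^ 2) ≤
    ((1 / 2) ^ (s.j + 1) / (s.P : ℝ)) ^ 2 ∧
  ∃ (q : ℕ) (α : ℝ), 0 < q ∧ s'.P = s.P * q ∧
    ‖y (s.j + 1) - y s.j‖ / ‖y s.j‖ ^ 4 - 2 ≤
      ‖(q : ℂ) * ∫ θ in α..(α + 2 * Real.pi / q), Fn s'.u (ex θ) * ex (-(q * θ))‖

theorem exists_next (hS : S_STEP) (y : ℕ → ℂ) (η : ℕ → ℝ) (hηpos : ∀ j, 0 < η j)
    (hη : ∀ j (x : ℂ), ‖x - y j‖ ≤ η j →
      8 * ‖y (j + 1) - x‖ ≤ ‖x‖ ∧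
      ‖2 * conj x / x ^ 3 * (y (j + 1) - x) - 2 * (conj (y j) / (y j) ^ 3 * (y (j + 1) - y j))‖ ≤
        (1 / 2) ^ j ∧
      20 * ‖y (j + 1) - x‖ ^ 2 / ‖x‖ ^ 3 ≤
        20 * (‖y (j + 1) - y j‖ ^ 2 / ‖y j‖ ^ 3) + (1 / 2) ^ j ∧
      2 * ‖y (j + 1) - x‖ / ‖x‖ ^ 2 ≤ 2 * (‖y (j + 1) - y j‖ / ‖y j‖ ^ 2) + (1 / 2) ^ j ∧
      ‖y (j + 1) - y j‖ / ‖y j‖ ^ 4 - (1 / 2) ^ j ≤
        ‖2 * (Real.pi : ℂ) * (-3 * (y (j + 1) - x) / x ^ 4)‖)
    (s : Sta y η) : ∃ s' : Sta y η, Rel s s' := by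
  obtain ⟨j, u, z, P, zf, hz, hP, hs⟩ := s
  obtain ⟨a1, a2, a3, a4, a5⟩ := hη j (u.eval z) hs
  set x := u.eval z with hx
  have hPr : (0 : ℝ) < P := by exact_mod_cast hP
  have hdpos : (0 : ℝ) < ((1 / 2) ^ (j + 1) / (P : ℝ)) ^ 2 := by positivity
  have hτ : (0 : ℝ) < (1 / 2) ^ j := by positivity
  have hτ1 : ((1 : ℝ) / 2) ^ j ≤ 1 := pow_le_one₀ (by norm_num) (by norm_num)
  obtain ⟨u', z1, q, α, hq, hz1, hzf', b1, b2, b3, b4, b5⟩ :=
    hS u zf z hz (y (j + 1) - x) a1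
      (min (η (j + 1)) (min ((1 / 2) ^ j) (((1 / 2) ^ (j + 1) / (P : ℝ)) ^ 2)))
      (lt_min (hηpos _) (lt_min hτ hdpos))
  set ε := min (η (j + 1)) (min ((1 / 2) ^ j) (((1 / 2) ^ (j + 1) / (P : ℝ)) ^ 2)) with hε
  have c1 : ε ≤ η (j + 1) := min_le_left _ _
  have c2 : ε ≤ (1 / 2) ^ j := (min_le_right _ _).trans (min_le_left _ _)
  have c3 : ε ≤ ((1 / 2) ^ (j + 1) / (P : ℝ)) ^ 2 := (min_le_right _ _).trans (min_le_right _ _)
  have hsum : u.eval z + (y (j + 1) - x) = y (j + 1) := by rw [← hx]; ring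
  refine ⟨⟨j + 1, u', z1, P * q, hzf', hz1, Nat.mul_pos hP hq, ?_⟩, rfl, ?_, ?_, ?_, q, α, hq,
    rfl, ?_⟩
  · rw [← hx, hx, hsum] at b1
    exact b1.trans c1
  · show ‖K u' z1 - K u z + 2 * (conj (y j) / (y j) ^ 3 * (y (j + 1) - y j))‖ ≤
      20 * (‖y (j + 1) - y j‖ ^ 2 / ‖y j‖ ^ 3) + 3 * (1 / 2) ^ j
    have h1 : K u' z1 - K u z + 2 * (conj (y j) / (y j) ^ 3 * (y (j + 1) - y j)) =
        (K u' z1 - K u z + 2 * conj x / x ^ 3 * (y (j + 1) - x)) -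
        (2 * conj x / x ^ 3 * (y (j + 1) - x) -
          2 * (conj (y j) / (y j) ^ 3 * (y (j + 1) - y j))) := by ring
    rw [h1]
    refine (norm_sub_le _ _).trans ?_
    linarith
  · intro ζ hζ
    show ‖K u' ζ‖ ≤ max ‖K u ζ‖
      (‖K u z‖ + 2 * (‖y (j + 1) - y j‖ / ‖y j‖ ^ 2) +
        20 * (‖y (j + 1) - y j‖ ^ 2 / ‖y j‖ ^ 3) + 2 * (1 / 2) ^ j) + (1 / 2) ^ j
    refine (b3 ζ hζ).trans ?_
    apply add_le_add _ c2
    apply max_le_max le_rfl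
    linarith
  · show (∫ θ in (0:ℝ)..(2 * Real.pi), ‖Fn u' (ex θ) - Fn u (ex θ)‖ ^ 2) ≤
      ((1 / 2) ^ (j + 1) / (P : ℝ)) ^ 2
    exact b4.trans c3
  · show ‖y (j + 1) - y j‖ / ‖y j‖ ^ 4 - 2 ≤
      ‖(q : ℂ) * ∫ θ in α..(α + 2 * Real.pi / q), Fn u' (ex θ) * ex (-(q * θ))‖
    have h2 := norm_sub_norm_le (2 * (Real.pi : ℂ) * (-3 * (y (j + 1) - x) / x ^ 4))
      ((q : ℂ) * ∫ θ in α..(α + 2 * Real.pi / q), Fn u' (ex θ) * ex (-(q * θ)))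
    rw [norm_sub_rev] at h2
    linarith

/-- `K` of a constant -/
theorem K_const (c : ℂ) (z : ℂ) : K (C c) z = conj c * (c⁻¹) ^ 2 := by
  have hg : ∀ n, gco (C c) n = if n = 0 then (c⁻¹) ^ 2 else 0 := by
    intro n
    unfold gco
    rw [Polynomial.coe_C, PowerSeries.C_inv, ← map_pow, PowerSeries.coeff_C]
  have hk : ∀ n, Kc (C c) n = if n = 0 then conj c * (c⁻¹) ^ 2 else 0 := by
    intro n
    unfold Kc
    rw [natDegree_C, zero_add, sum_range_one, coeff_C_zero, hg]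
    simp only [add_zero, Nat.cast_zero]
    have hn : ((n : ℂ) + 1) ≠ 0 := Nat.cast_add_one_ne_zero n
    rw [div_self hn, mul_one]
    split_ifs <;> simp
  unfold K
  rw [tsum_eq_single 0]
  · rw [hk]; simp
  · intro n hn
    rw [hk, if_neg hn, zero_mul]

theorem t_CONS : S_STEP → S_PATH → S_CONS := by
  intro hS ⟨y, Cc, hy0, hy16, hsum, herr, hunb⟩
  -- tolerances
  have hex : ∀ j, ∃ η : ℝ, 0 < η ∧ ∀ x : ℂ, ‖x - y j‖ ≤ η →
      8 * ‖y (j + 1) - x‖ ≤ ‖x‖ ∧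
      ‖2 * conj x / x ^ 3 * (y (j + 1) - x) - 2 * (conj (y j) / (y j) ^ 3 * (y (j + 1) - y j))‖ ≤
        (1 / 2) ^ j ∧
      20 * ‖y (j + 1) - x‖ ^ 2 / ‖x‖ ^ 3 ≤
        20 * (‖y (j + 1) - y j‖ ^ 2 / ‖y j‖ ^ 3) + (1 / 2) ^ j ∧
      2 * ‖y (j + 1) - x‖ / ‖x‖ ^ 2 ≤ 2 * (‖y (j + 1) - y j‖ / ‖y j‖ ^ 2) + (1 / 2) ^ j ∧
      ‖y (j + 1) - y j‖ / ‖y j‖ ^ 4 - (1 / 2) ^ j ≤
        ‖2 * (Real.pi : ℂ) * (-3 * (y (j + 1) - x) / x ^ 4)‖ := fun j =>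
    exists_eta (y j) (y (j + 1)) (hy0 j) (hy16 j) ((1 / 2) ^ j) (by positivity)
  choose η hηpos hη using hex
  choose f hf using exists_next hS y η hηpos hη
  let s0 : Sta y η := ⟨0, C (y 0), 1, 1, by
    intro z _
    rw [eval_C]
    exact hy0 0, norm_one, one_pos, by
    rw [eval_C, sub_self, norm_zero]
    exact (hηpos 0).le⟩
  let S : ℕ → Sta y η := fun n => Nat.rec s0 (fun _ s => f s) n
  have hS0 : S 0 = s0 := rfl
  have hSs : ∀ n, S (n + 1) = f (S n) := fun n => rfl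
  have hj : ∀ n, (S n).j = n := by
    intro n
    induction n with
    | zero => rfl
    | succ n ih => rw [hSs, (hf (S n)).1, ih]
  -- the data
  set e : ℕ → ℝ := fun j => ‖y (j + 1) - y j‖ ^ 2 / ‖y j‖ ^ 3 with he
  have he0 : ∀ j, 0 ≤ e j := fun j => by positivity
  have hK : ∀ n, ‖K (S (n + 1)).u (S (n + 1)).z - K (S n).u (S n).z +
      2 * (conj (y n) / (y n) ^ 3 * (y (n + 1) - y n))‖ ≤ 20 * e n + 3 * (1 / 2) ^ n := by
    intro n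
    have := (hf (S n)).2.1
    rw [← hSs, hj n] at this
    exact this
  have hKz : ∀ n, ‖K (S n).u (S n).z - K (S 0).u (S 0).z + 2 * chainSum y n‖ ≤
      20 * chainErr y n + 3 * ∑ i ∈ range n, ((1 : ℝ) / 2) ^ i := by
    intro n
    induction n with
    | zero => simp [chainSum, chainErr]
    | succ n ih =>
      have h1 : K (S (n + 1)).u (S (n + 1)).z - K (S 0).u (S 0).z + 2 * chainSum y (n + 1) =
          (K (S n).u (S n).z - K (S 0).u (S 0).z + 2 * chainSum y n) +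
          (K (S (n + 1)).u (S (n + 1)).z - K (S n).u (S n).z +
            2 * (conj (y n) / (y n) ^ 3 * (y (n + 1) - y n))) := by
        unfold chainSum
        rw [sum_range_succ]
        ring
      rw [h1]
      refine (norm_add_le _ _).trans ?_
      have h2 : chainErr y (n + 1) = chainErr y n + e n := by
        unfold chainErr
        rw [sum_range_succ]
      rw [h2, sum_range_succ]
      have := hK n
      linarith
  have hgeom : ∀ n, ∑ i ∈ range n, ((1 : ℝ) / 2) ^ i ≤ 2 := by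
    intro n
    have h1 := (summable_geometric_two).sum_le_tsum (range n) (fun i _ => by positivity)
    rw [tsum_geometric_two] at h1
    exact h1
  have hC0 : 0 ≤ Cc := (norm_nonneg _).trans (hsum 0)
  set B0 : ℝ := ‖K (S 0).u (S 0).z‖ + 22 * Cc + 6 with hB0
  have hKb : ∀ n, ‖K (S n).u (S n).z‖ ≤ B0 := by
    intro n
    have h1 : K (S n).u (S n).z = (K (S n).u (S n).z - K (S 0).u (S 0).z + 2 * chainSum y n) +
        (K (S 0).u (S 0).z - 2 * chainSum y n) := by ring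
    rw [h1]
    refine (norm_add_le _ _).trans ?_
    have h2 := norm_sub_le (K (S 0).u (S 0).z) (2 * chainSum y n)
    have h3 : ‖2 * chainSum y n‖ = 2 * ‖chainSum y n‖ := by
      rw [norm_mul]; simp
    rw [h3] at h2
    have h4 := hsum n
    have h5 := hKz n
    have h6 := herr n
    have h7 := hgeom n
    linarith
  have hD : ∀ n, ‖y (n + 1) - y n‖ / ‖y n‖ ^ 2 ≤ 2 * Cc := by
    intro n
    have h1 : ‖y (n + 1) - y n‖ / ‖y n‖ ^ 2 = ‖chainSum y (n + 1) - chainSum y n‖ := by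
      unfold chainSum
      rw [sum_range_succ, add_sub_cancel_left, norm_mul, norm_div, norm_pow, RCLike.norm_conj]
      have : ‖y n‖ ≠ 0 := norm_ne_zero_iff.2 (hy0 n)
      field_simp
    rw [h1]
    refine (norm_sub_le _ _).trans ?_
    have := hsum n
    have := hsum (n + 1)
    linarith
  have hE : ∀ n, e n ≤ Cc := by
    intro n
    refine le_trans ?_ (herr (n + 1))
    unfold chainErr
    exact single_le_sum (f := e) (fun i _ => he0 i) (self_mem_range_succ n)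
  set M : ℝ := max (B0 + 24 * Cc + 2) (‖conj (y 0) * ((y 0)⁻¹) ^ 2‖) with hM
  have hcirc : ∀ n (ζ : ℂ), ‖ζ‖ = 1 → ‖K (S n).u ζ‖ ≤ M + ∑ i ∈ range n, ((1 : ℝ) / 2) ^ i := by
    intro n
    induction n with
    | zero =>
      intro ζ hζ
      rw [hS0]
      show ‖K (C (y 0)) ζ‖ ≤ _
      rw [K_const]
      simp [hM]
    | succ n ih =>
      intro ζ hζ
      have h1 := (hf (S n)).2.2.1 ζ hζ
      rw [← hSs, hj n] at h1
      refine h1.trans ?_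
      rw [sum_range_succ]
      have hs0 : 0 ≤ ∑ i ∈ range n, ((1 : ℝ) / 2) ^ i := sum_nonneg fun i _ => by positivity
      have h2 : max ‖K (S n).u ζ‖
        (‖K (S n).u (S n).z‖ + 2 * (‖y (n + 1) - y n‖ / ‖y n‖ ^ 2) +
          20 * (‖y (n + 1) - y n‖ ^ 2 / ‖y n‖ ^ 3) + 2 * (1 / 2) ^ n) ≤
          M + ∑ i ∈ range n, ((1 : ℝ) / 2) ^ i := by
        apply max_le (ih ζ hζ)
        have h3 := hKb n
        have h4 := hD n
        have h5 : ‖y (n + 1) - y n‖ ^ 2 / ‖y n‖ ^ 3 ≤ Cc := hE n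
        have h6 : ((1 : ℝ) / 2) ^ n ≤ 1 := pow_le_one₀ (by norm_num) (by norm_num)
        have h7 : B0 + 24 * Cc + 2 ≤ M := le_max_left _ _
        linarith
      linarith
  have hPmono : Monotone (fun n => (S n).P) := by
    apply monotone_nat_of_le_succ
    intro n
    obtain ⟨q, α, hq, hP, -⟩ := (hf (S n)).2.2.2.2
    rw [← hSs] at hP
    show (S n).P ≤ (S (n + 1)).P
    rw [hP]
    exact Nat.le_mul_of_pos_right _ hq
  set d : ℕ → ℝ := fun n => (1 / 2) ^ (n + 1) / ((S n).P : ℝ) with hd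
  have hPpos : ∀ n, (0 : ℝ) < ((S n).P : ℝ) := fun n => by exact_mod_cast (S n).hP
  have hd0 : ∀ n, 0 ≤ d n := fun n => by
    have := hPpos n
    positivity
  have hdle : ∀ n, d n ≤ (1 / 2) ^ (n + 1) := by
    intro n
    apply div_le_self (by positivity)
    exact_mod_cast (S n).hP
  have hsg : Summable (fun n : ℕ => ((1 : ℝ) / 2) ^ (n + 1)) :=
    (summable_nat_add_iff (f := fun n => ((1 : ℝ) / 2) ^ n) 1).2 summable_geometric_two
  have hdsum : Summable d := Summable.of_nonneg_of_le hd0 hdle hsg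
  refine ⟨fun n => (S n).u, M + 2, d, fun n => (S n).zf, ?_, hd0, hdsum, ?_, ?_⟩
  · intro n z hz
    exact (hcirc n z hz).trans (by linarith [hgeom n])
  · intro n
    have h1 := (hf (S n)).2.2.2.1
    rw [← hSs, hj n] at h1
    exact h1
  · intro A
    obtain ⟨j, hjA⟩ := hunb (A + 2)
    obtain ⟨q, α, hq, hP, hbd⟩ := (hf (S j)).2.2.2.2
    rw [← hSs] at hP hbd
    rw [hj j] at hbd
    refine ⟨j + 1, q, α, hq, ?_, ?_⟩
    · show A ≤ ‖(q : ℂ) * ∫ θ in α..(α + 2 * Real.pi / q),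
        Fn (S (j + 1)).u (ex θ) * ex (-(q * θ))‖
      linarith
    · have hqr : (0 : ℝ) < q := by exact_mod_cast hq
      have h1 : ∀ l, (q : ℝ) * d (l + (j + 1)) ≤ (1 / 2) ^ (l + 1) := by
        intro l
        have h2 : (q : ℝ) ≤ ((S (l + (j + 1))).P : ℝ) := by
          have h3 : (S (j + 1)).P ≤ (S (l + (j + 1))).P :=
            hPmono (show j + 1 ≤ l + (j + 1) by omega)
          have h4 : q ≤ (S (j + 1)).P := by
            rw [hP]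
            exact Nat.le_mul_of_pos_left _ (S j).hP
          exact_mod_cast h4.trans h3
        have h5 := hPpos (l + (j + 1))
        show (q : ℝ) * ((1 / 2) ^ (l + (j + 1) + 1) / ((S (l + (j + 1))).P : ℝ)) ≤ _
        rw [mul_div_assoc', div_le_iff₀ h5]
        have h6 : ((1 : ℝ) / 2) ^ (l + (j + 1) + 1) ≤ (1 / 2) ^ (l + 1) :=
          pow_le_pow_of_le_one (by norm_num) (by norm_num) (by omega)
        have h7 : (0 : ℝ) < (1 / 2) ^ (l + 1) := by positivity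
        nlinarith [pow_pos (by norm_num : (0 : ℝ) < 1 / 2) (l + (j + 1) + 1)]
      have hs1 : Summable (fun l => (q : ℝ) * d (l + (j + 1))) :=
        ((summable_nat_add_iff (f := d) (j + 1)).2 hdsum).mul_left _
      rw [← tsum_mul_left]
      refine (hs1.tsum_le_tsum h1 hsg).trans ?_
      have h8 : ∑' n : ℕ, ((1 : ℝ) / 2) ^ (n + 1) = 1 := by
        have h9 := (summable_geometric_two).tsum_eq_zero_add
        rw [tsum_geometric_two] at h9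
        simp only [pow_zero] at h9
        linarith
      rw [h8]

end Pool.Agent.U283.BX.CONS
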